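import Pool.Agent.U954.PO.Mero
import Pool.Agent.Results.MP_66fa61_co.AnalyticContinuation

/-!
# The generating function of fixed polyominoes is not rational

Let `t n` be the number of fixed polyominoes with `n` cells (connected sets of `n` cells of the square
lattice modulo translations), `T = ∑ t(n) z^n`, and `lam = lim t(n)^(1/n)`. We prove that `T` is not
rational. More precisely the singularity of `T` at `1/lam` is not a pole: there is no function which is
meromorphic at the point `1/lam` and agrees with `T` in the open disc of convergence near this point.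

Proof. Let `P`, `Q` be polyominoes with `n` and `m` cells. For each relative height at which they have
a common row, move `Q` to the left as far as possible without touching `P`. Then there is a cell which
touches both; it is a cut cell of the union, with `P` and `Q` as the components of its complement, and
its left neighbour lies in `P`. So the number of triples (`P`, `Q`, relative height) with `n + m = N` is
at most `(N + 2) t (N + 1)`. The mean number of rows of `P` tends to infinity with `n` (rows times columns
is at least `n`, and there is the symmetry between rows and columns). Hence the means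
`(1 / M) ∑_{n < M} t(n) / lam^n` tend to zero. So `(1 - lam x) T(x)` tends to zero for `x → 1/lam`, and `T` has no
pole on the circle `|z| = 1/lam`. If `T` were meromorphic at `1/lam`, then by the starting result
`AnalyticContinuation` it would be meromorphic, hence holomorphic on the closed disc `|z| ≤ 1/lam`, in
contradiction to the definition of `lam`.
-/

set_option autoImplicit false

namespace Pool.Agent.Results.MP_66fa61_co.NotRational

open Filter Topology Pool.Agent.N789

/-- **Theorem.** (1) There are no polynomials `P`, `Q ≠ 0` with rational coefficients such that the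
generating function `∑ t(n) z^n` of the numbers of fixed polyominoes is `P / Q`, that is
`Q * ∑ t(n) z^n = P` as formal power series. (2) Let `lam = lim t(n)^(1/n)`. There is no function `f`
which is meromorphic at the point `1/lam` and satisfies `f z = ∑ t(n) z^n` for all `z` with `|z| < 1/lam` in
some neighbourhood of `1/lam`. -/
theorem result :
    (¬ ∃ P Q : Polynomial ℚ, Q ≠ 0 ∧
      (Q : PowerSeries ℚ) * PowerSeries.mk (fun n => (Kl.t n : ℚ)) = (P : PowerSeries ℚ)) ∧
    ∃ lam : ℝ, 1 ≤ lam ∧ Tendsto (fun n : ℕ => (Kl.t n : ℝ) ^ ((1 : ℝ) / n)) atTop (𝓝 lam) ∧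
      ¬ ∃ f : ℂ → ℂ, MeromorphicAt f ((1 / lam : ℝ) : ℂ) ∧
        ∀ᶠ z in 𝓝 ((1 / lam : ℝ) : ℂ), lam * ‖z‖ < 1 →
          HasSum (fun n => (Kl.t n : ℂ) * z ^ n) (f z) := by
  constructor
  · rintro ⟨P, Q, hQ, h⟩
    apply Pool.Agent.U954.PO.not_rational
    refine ⟨P.map (algebraMap ℚ ℂ), Q.map (algebraMap ℚ ℂ),
      (Polynomial.map_ne_zero_iff (algebraMap ℚ ℂ).injective).2 hQ, ?_⟩
    have h1 := congrArg (PowerSeries.map (algebraMap ℚ ℂ)) h
    rw [map_mul] at h1
    rw [Polynomial.polynomial_map_coe, Polynomial.polynomial_map_coe, ← h1]
    have h2 : PowerSeries.map (algebraMap ℚ ℂ) (PowerSeries.mk fun n => (Kl.t n : ℚ)) =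
        PowerSeries.mk fun n => (Kl.t n : ℂ) := by
      ext n
      simp
    rw [h2]
  · obtain ⟨lam', -, h2, δ, -, ⟨hD, -, hD2, hD1⟩, g, -, hg, hgs, -⟩ := AnalyticContinuation.result
    have e : lam' = Kl.lam := tendsto_nhds_unique h2 Kl.tendsto_lam
    subst e
    refine ⟨Kl.lam, Kl.one_le_lam, Kl.tendsto_lam, ?_⟩
    rintro ⟨f, hf, hfs⟩
    exact Pool.Agent.U954.PO.no_mero_at _ g hD hD1 hD2 hg hgs f hf hfs

end Pool.Agent.Results.MP_66fa61_co.NotRational
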